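import Pool.Agent.WK2.Kit
import Pool.Agent.Helper67_WKS.Res
import Mathlib.Analysis.Real.Cardinality

/-!
# MP_7d2497_an, squad WK4: projection onto a clopen piece of a nice set, patching of the inequality
-/

set_option autoImplicit false

namespace Pool.Agent.WKS

open MeasureTheory Filter Topology Complex
open Pool.Agent.H78E (IsWeight Y X one_add_ne)

noncomputable section

namespace ISub

variable {φ : ℝ → ℝ} (J : ISub φ)

theorem D_cont (hφ : IsWeight φ) : Continuous fun z : ℂ => (J.S hφ).D z := by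
  unfold GSemi.D
  fun_prop

/-- The resolvent vector. -/
def rv (hφ : IsWeight φ) (z : ℂ) : J.Q :=
  Ring.inverse ((J.S hφ).D z) ((J.S hφ).En 1 (J.qm (rw' φ)))

theorem rv_cont (hφ : IsWeight φ) {z : ℂ} (hz : z ∉ J.hull) : ContinuousAt (J.rv hφ) z := by
  obtain ⟨u, hu⟩ := J.D_unit hφ hz
  have h1 : ContinuousAt (fun z : ℂ => Ring.inverse ((J.S hφ).D z)) z := by
    have h2 : ContinuousAt Ring.inverse ((J.S hφ).D z) := by
      rw [← hu]
      exact NormedRing.inverse_continuousAt u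
    exact ContinuousAt.comp (f := fun z : ℂ => (J.S hφ).D z) h2 (J.D_cont hφ).continuousAt
  unfold rv
  exact h1.clm_apply continuousAt_const

theorem ch_rv (hφ : IsWeight φ) {z : ℂ} (hz : z ∉ J.hull) {x : ℝ} (hx : (x : ℂ) ∈ J.hull) :
    -Complex.I * (1 + Complex.I * z) * J.ch hx (J.rv hφ z) =
      (z - (x : ℂ))⁻¹ * ((1 + Complex.I * z) / (1 + Complex.I * x)) := by
  have hu := J.D_unit hφ hz
  have h2 := Ring.mul_inverse_cancel _ hu
  have h3 : (J.S hφ).D z (J.rv hφ z) = (J.S hφ).En 1 (J.qm (rw' φ)) := by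
    have := congrArg (fun A : J.Q →L[ℂ] J.Q => A ((J.S hφ).En 1 (J.qm (rw' φ)))) h2
    exact this
  have h4 := congrArg (J.ch hx) h3
  rw [GSemi.D_apply, map_sub, map_smul, J.ch_En hφ, J.ch_En hφ, J.ch_qm, chiW_rw hφ (by simp),
    smul_eq_mul] at h4
  have hne : 1 + Complex.I * (x : ℂ) ≠ 0 := one_add_ne (by simp)
  have hzx : z - (x : ℂ) ≠ 0 := by
    intro h
    rw [sub_eq_zero] at h
    rw [h] at hz
    exact hz hx
  set v := J.ch hx (J.rv hφ z) with hv
  have h7 : v * (-(Complex.I * (z - x))) * (1 + Complex.I * x) = 1 := by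
    have h5 : v * (-(Complex.I * (z - x))) * (1 + Complex.I * x) =
        (v - (1 + Complex.I * z) * (1 / (1 + Complex.I * ↑x) * v)) * (1 + Complex.I * x) ^ 2 := by
      field_simp
      ring
    rw [h5, h4]
    field_simp
  rw [inv_mul_eq_div, eq_div_iff hzx, eq_div_iff hne]
  have h8 : -Complex.I * (1 + Complex.I * z) * v * (z - x) * (1 + Complex.I * x) =
    (1 + Complex.I * z) * (v * (-(Complex.I * (z - x))) * (1 + Complex.I * x)) := by
    ring
  rw [h8, h7, mul_one]

/-- An element with transform one on a clopen piece, zero on the rest. -/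
theorem exists_piece (hφ : IsWeight φ) {c ρ : ℝ} (hρ : 0 < ρ)
    (hoff : ∀ z : ℂ, ‖z - (c : ℂ)‖ = ρ → z ∉ J.hull) :
    ∃ F : Y, ∀ x : ℝ, (x : ℂ) ∈ J.hull →
      (|x - c| < ρ → chiW φ (x : ℂ) F = 1) ∧ (ρ < |x - c| → chiW φ (x : ℂ) F = 0) := by
  have hci : CircleIntegrable (fun z : ℂ => (-Complex.I * (1 + Complex.I * z)) • J.rv hφ z)
      (c : ℂ) ρ := by
    apply ContinuousOn.circleIntegrable hρ.le
    intro z hz
    rw [mem_sphere_iff_norm] at hz
    have h1 := J.rv_cont hφ (hoff z hz)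
    have h2 : ContinuousAt (fun z : ℂ => -Complex.I * (1 + Complex.I * z)) z := by fun_prop
    exact (h2.smul h1).continuousWithinAt
  obtain ⟨F, hF⟩ := J.qm_surj ((2 * (Real.pi : ℂ) * Complex.I)⁻¹ •
    ∮ z in C((c : ℂ), ρ), (-Complex.I * (1 + Complex.I * z)) • J.rv hφ z)
  refine ⟨F, fun x hx => ?_⟩
  have hpi : (2 * (Real.pi : ℂ) * Complex.I) ≠ 0 := by
    simp [Real.pi_ne_zero, Complex.I_ne_zero]
  have hne : 1 + Complex.I * (x : ℂ) ≠ 0 := one_add_ne (by simp)
  have h1 : chiW φ (x : ℂ) F = (2 * (Real.pi : ℂ) * Complex.I)⁻¹ *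
      ∮ z in C((c : ℂ), ρ), (z - (x : ℂ))⁻¹ • ((1 + Complex.I * z) / (1 + Complex.I * x)) := by
    rw [← J.ch_qm hx, hF, map_smul, smul_eq_mul,
      Pool.Agent.H78E.H92.clm_circle (J.ch hx) hci]
    congr 1
    apply circleIntegral.integral_congr hρ.le
    intro z hz
    rw [mem_sphere_iff_norm] at hz
    simp only
    rw [map_smul, smul_eq_mul, smul_eq_mul, J.ch_rv hφ (hoff z hz) hx]
  have hnorm : ‖(x : ℂ) - (c : ℂ)‖ = |x - c| := by
    rw [← Complex.ofReal_sub, Complex.norm_real, Real.norm_eq_abs]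
  have hdiff : Differentiable ℂ fun z : ℂ => (1 + Complex.I * z) / (1 + Complex.I * (x : ℂ)) := by
    fun_prop
  constructor
  · intro hin
    have h2 : (x : ℂ) ∈ Metric.ball (c : ℂ) ρ := by
      rw [mem_ball_iff_norm, hnorm]
      exact hin
    rw [h1, Complex.circleIntegral_sub_inv_smul_of_differentiable_on_off_countable
      Set.countable_empty h2 hdiff.continuous.continuousOn (fun z _ => hdiff z), smul_eq_mul,
      div_self hne, mul_one, inv_mul_cancel₀ hpi]
  · intro hout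
    have h2 : ∮ z in C((c : ℂ), ρ), (z - (x : ℂ))⁻¹ • ((1 + Complex.I * z) / (1 + Complex.I * x)) =
        0 := by
      have hzx : ∀ z : ℂ, z ∈ Metric.closedBall (c : ℂ) ρ → z - (x : ℂ) ≠ 0 := by
        intro z hz h
        rw [sub_eq_zero] at h
        rw [h, mem_closedBall_iff_norm, hnorm] at hz
        linarith
      apply Complex.circleIntegral_eq_zero_of_differentiable_on_off_countable hρ.le
        Set.countable_empty
      · intro z hz
        apply ContinuousAt.continuousWithinAt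
        have h3 : ContinuousAt (fun z : ℂ => (z - (x : ℂ))⁻¹) z :=
          ContinuousAt.inv₀ (by fun_prop) (hzx z hz)
        exact h3.smul hdiff.continuous.continuousAt
      · intro z hz
        have h3 : DifferentiableAt ℂ (fun z : ℂ => (z - (x : ℂ))⁻¹) z :=
          DifferentiableAt.inv (by fun_prop) (hzx z (Metric.ball_subset_closedBall hz.1))
        exact h3.smul (hdiff z)
    rw [h1, h2, mul_zero]

end ISub

end

end Pool.Agent.WKS

namespace Pool.Agent.WK4

open MeasureTheory Filter Topology Complex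
open Pool.Agent.H78E Pool.Agent.WK Pool.Agent.WK2 Pool.Agent.WKS

noncomputable section

variable {φ : ℝ → ℝ}

/-- The elements with transform zero on a set. -/
def IKS (φ : ℝ → ℝ) (hφ : IsWeight φ) (K : Set ℝ) : ISub φ where
  I :=
    { carrier := {F : Y | ∀ x ∈ K, chiW φ (x : ℂ) F = 0}
      add_mem' := by
        intro a b ha hb x hx
        rw [map_add, ha x hx, hb x hx, add_zero]
      zero_mem' := by
        intro x _
        rw [map_zero]
      smul_mem' := by
        intro c a ha x hx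
        rw [map_smul, ha x hx, smul_zero] }
  closed := by
    have : {F : Y | ∀ x ∈ K, chiW φ (x : ℂ) F = 0} = ⋂ x ∈ K, {F : Y | chiW φ (x : ℂ) F = 0} := by
      ext F
      simp
    change IsClosed {F : Y | ∀ x ∈ K, chiW φ (x : ℂ) F = 0}
    rw [this]
    exact isClosed_biInter fun x _ => isClosed_eq (chiW φ (x : ℂ)).continuous continuous_const
  inv := by
    intro s hs f hf x hx
    rw [chiW_YW hφ (by simp) hs, hf x hx, mul_zero]

theorem mem_IKS (hφ : IsWeight φ) {K : Set ℝ} {F : Y} :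
    F ∈ (IKS φ hφ K).I ↔ ∀ x ∈ K, chiW φ (x : ℂ) F = 0 := Iff.rfl

theorem hull_IKS (hφ : IsWeight φ) {K : Set ℝ}
    (n1 : ∀ z : ℂ, z.im ≤ 0 → z ∉ rc K → ∃ f : ℝ → ℂ, JK φ K f ∧ FT f z ≠ 0) :
    (IKS φ hφ K).hull = rc K := by
  ext z
  constructor
  · intro hz
    by_contra hcon
    obtain ⟨f, hf, hne⟩ := n1 z hz.1 hcon
    obtain ⟨F, _, _, hF⟩ := toE hφ hf.1
    apply hne
    rw [hF z hz.1]
    apply hz.2
    intro x hx
    rw [← hF _ (by simp)]
    exact hf.2 x hx
  · rintro ⟨x, hx, rfl⟩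
    exact ⟨by simp, fun f hf => hf x hx⟩

/-- PROJ. -/
theorem proj (hφ : IsWeight φ) {K : Set ℝ}
    (n1 : ∀ z : ℂ, z.im ≤ 0 → z ∉ rc K → ∃ f : ℝ → ℂ, JK φ K f ∧ FT f z ≠ 0) {a b : ℝ}
    (hab : a < b) (ha : a ∉ K) (hb : b ∉ K) :
    ∃ f : ℝ → ℂ, LP φ f ∧ ∀ x ∈ K, (a < x → x < b → FT f (x : ℂ) = 1) ∧
      (x < a ∨ b < x → FT f (x : ℂ) = 0) := by
  have hρ : 0 < (b - a) / 2 := by linarith
  have hoff : ∀ z : ℂ, ‖z - (((a + b) / 2 : ℝ) : ℂ)‖ = (b - a) / 2 → z ∉ (IKS φ hφ K).hull := by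
    intro z hz h
    rw [hull_IKS hφ n1] at h
    obtain ⟨x, hx, rfl⟩ := h
    rw [← Complex.ofReal_sub, Complex.norm_real, Real.norm_eq_abs] at hz
    rcases abs_eq hρ.le |>.mp hz with h | h
    · apply hb
      have : x = b := by linarith
      rwa [← this]
    · apply ha
      have : x = a := by linarith
      rwa [← this]
  obtain ⟨F, hF⟩ := (IKS φ hφ K).exists_piece hφ hρ hoff
  obtain ⟨f, hf, _, _, hfF⟩ := ofE hφ F
  refine ⟨f, hf, fun x hx => ?_⟩
  have hx' : (x : ℂ) ∈ (IKS φ hφ K).hull := by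
    rw [hull_IKS hφ n1]
    exact ⟨x, hx, rfl⟩
  obtain ⟨h1, h2⟩ := hF x hx'
  rw [hfF _ (by simp)]
  constructor
  · intro h3 h4
    apply h1
    rw [abs_lt]
    constructor <;> linarith
  · intro h3
    apply h2
    rcases h3 with h3 | h3
    · rw [lt_abs]
      right
      linarith
    · rw [lt_abs]
      left
      linarith

/-- Correlation of a function with an exponential sum. -/
theorem corr_ES {f : ℝ → ℂ} (hφ : IsWeight φ) (hf : LP φ f) (F : Finset ℝ) (c : ℝ → ℂ) (t : ℝ) :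
    Integrable (fun u : ℝ => f u * ES F c (t + u)) ∧
      ∫ u : ℝ, f u * ES F c (t + u) = ES F (fun x => c x * FT f (x : ℂ)) t := by
  have hfi : Integrable f := by
    refine (hf.1.2).mono hf.1.1 ?_
    refine Eventually.of_forall fun u => ?_
    rw [norm_mul, Real.norm_of_nonneg (zero_le_one.trans (hφ.one_le u)), norm_norm]
    exact le_mul_of_one_le_left (norm_nonneg _) (hφ.one_le u)
  have hterm : ∀ x : ℝ, Integrable (fun u : ℝ => f u * (c x * expR x (t + u))) := by
    intro x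
    refine hfi.mul_bdd (c := ‖c x‖) ?_ ?_
    · apply Continuous.aestronglyMeasurable
      unfold expR
      fun_prop
    · refine Eventually.of_forall fun u => ?_
      rw [norm_mul]
      have : ‖expR x (t + u)‖ = 1 := by
        unfold expR
        rw [Complex.norm_exp]
        simp
      rw [this, mul_one]
  have e : ∀ u : ℝ, f u * ES F c (t + u) = ∑ x ∈ F, f u * (c x * expR x (t + u)) := by
    intro u
    unfold ES
    rw [Finset.mul_sum]
  constructor
  · simp_rw [e]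
    exact integrable_finsetSum _ fun x _ => hterm x
  · simp_rw [e]
    rw [integral_finsetSum F fun x _ => hterm x]
    unfold ES
    apply Finset.sum_congr rfl
    intro x _
    unfold FT
    rw [mul_assoc, mul_comm (∫ u : ℝ, _), ← mul_assoc, ← integral_const_mul]
    congr 1
    ext1 u
    unfold expR
    have : -(Complex.I * ((t + u : ℝ) : ℂ) * (x : ℂ)) =
        -(Complex.I * (t : ℂ) * (x : ℂ)) + -(Complex.I * (u : ℂ) * (x : ℂ)) := by
      push_cast
      ring
    rw [this, Complex.exp_add]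
    ring

/-- Adding a clopen piece. -/
theorem add_piece (hφ : IsWeight φ) {K M : Set ℝ} {a b : ℝ} (ha : a ∉ K) (hb : b ∉ K) {f : ℝ → ℂ}
    (hf : LP φ f) (hf1 : ∀ x ∈ K, (a < x → x < b → FT f (x : ℂ) = 1) ∧
      (x < a ∨ b < x → FT f (x : ℂ) = 0)) (hM : M ⊆ K) {C C' : ℝ} (hC : Ineq φ M C)
    (hC' : Ineq φ {x | x ∈ K ∧ a < x ∧ x < b} C') :
    ∃ C'' : ℝ, Ineq φ (M ∪ {x | x ∈ K ∧ a < x ∧ x < b}) C'' := by
  classical
  set N : ℝ := ∫ u : ℝ, φ u * ‖f u‖ with hN
  have hN0 : 0 ≤ N := integral_nonneg fun u => mul_nonneg (zero_le_one.trans (hφ.one_le u))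
    (norm_nonneg _)
  refine ⟨|C'| * N + |C| * (1 + N), ?_⟩
  intro F c A hFK hA t ht
  have hA0 : 0 ≤ A := by
    have h1 := hA 0 le_rfl
    have h2 := hφ.one_le 0
    by_contra hneg
    push Not at hneg
    have h3 : A * φ 0 < 0 := mul_neg_of_neg_of_pos hneg (by linarith)
    linarith [norm_nonneg (ES F c 0)]
  have hφt : 0 < φ t := zero_lt_one.trans_le (hφ.one_le t)
  -- the two parts
  set F1 : Finset ℝ := F.filter (fun x => a < x ∧ x < b) with hF1
  set F2 : Finset ℝ := F.filter (fun x => ¬(a < x ∧ x < b)) with hF2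
  have hFK' : ∀ x ∈ F, x ∈ K := by
    intro x hx
    rcases hFK hx with h | h
    · exact hM h
    · exact h.1
  have hsplit : ∀ s : ℝ, ES F c s = ES F1 c s + ES F2 c s := by
    intro s
    unfold ES
    rw [hF1, hF2, Finset.sum_filter_add_sum_filter_not]
  have hcorr : ∀ s : ℝ, ∫ u : ℝ, f u * ES F c (s + u) = ES F1 c s := by
    intro s
    rw [(corr_ES hφ hf F c s).2]
    unfold ES
    rw [hF1, Finset.sum_filter]
    apply Finset.sum_congr rfl
    intro x hx
    obtain ⟨h1, h2⟩ := hf1 x (hFK' x hx)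
    simp only
    split_ifs with h
    · rw [h1 h.1 h.2, mul_one]
    · have h3 : x < a ∨ b < x := by
        by_contra hcon
        push Not at hcon
        apply h
        have hxa : x ≠ a := fun h => ha (h ▸ hFK' x hx)
        have hxb : x ≠ b := fun h => hb (h ▸ hFK' x hx)
        exact ⟨lt_of_le_of_ne hcon.1 (Ne.symm hxa), lt_of_le_of_ne hcon.2 hxb⟩
      rw [h2 h3, mul_zero, zero_mul]
  have hb1 : ∀ s : ℝ, 0 ≤ s → ‖ES F1 c s‖ ≤ (N * A) * φ s := by
    intro s hs
    rw [← hcorr s]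
    have h1 : ∀ᵐ u : ℝ, ‖f u * ES F c (s + u)‖ ≤ (A * φ s) * (φ u * ‖f u‖) := by
      refine Eventually.of_forall fun u => ?_
      rw [norm_mul]
      by_cases hu : u < 0
      · rw [hf.2 u hu, norm_zero, zero_mul, mul_zero, mul_zero]
      · push Not at hu
        have h2 := hA (s + u) (add_nonneg hs hu)
        have h3 := hφ.submul s u
        calc ‖f u‖ * ‖ES F c (s + u)‖ ≤ ‖f u‖ * (A * (φ s * φ u)) := by
              apply mul_le_mul_of_nonneg_left _ (norm_nonneg _)
              exact h2.trans (mul_le_mul_of_nonneg_left h3 hA0)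
          _ = _ := by ring
    refine (norm_integral_le_of_norm_le (hf.1.2.const_mul _) h1).trans (le_of_eq ?_)
    rw [integral_const_mul, ← hN]
    ring
  have hb2 : ∀ s : ℝ, 0 ≤ s → ‖ES F2 c s‖ ≤ ((1 + N) * A) * φ s := by
    intro s hs
    have h1 : ES F2 c s = ES F c s - ES F1 c s := by rw [hsplit s]; ring
    rw [h1]
    have h2 := (norm_sub_le (ES F c s) (ES F1 c s)).trans (add_le_add (hA s hs) (hb1 s hs))
    refine h2.trans (le_of_eq ?_)
    ring
  have g1 := hC' F1 c (N * A) (by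
    intro x hx
    rw [hF1, Finset.coe_filter] at hx
    exact ⟨hFK' x hx.1, hx.2⟩) hb1 t ht
  have g2 := hC F2 c ((1 + N) * A) (by
    intro x hx
    rw [hF2, Finset.coe_filter] at hx
    rcases hFK hx.1 with h | h
    · exact h
    · exact absurd h.2 hx.2) hb2 t ht
  rw [hsplit t]
  refine (norm_add_le _ _).trans ((add_le_add g1 g2).trans ?_)
  have h1 : C' * (N * A) * φ t ≤ |C'| * (N * A) * φ t := by
    gcongr
    exact le_abs_self _
  have h2 : C * ((1 + N) * A) * φ t ≤ |C| * ((1 + N) * A) * φ t := by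
    gcongr
    exact le_abs_self _
  calc C' * (N * A) * φ t + C * ((1 + N) * A) * φ t
      ≤ |C'| * (N * A) * φ t + |C| * ((1 + N) * A) * φ t := add_le_add h1 h2
    _ = _ := by ring

/-- Monotonicity. -/
theorem ineq_mono {K K' : Set ℝ} (h : K' ⊆ K) {C : ℝ} (hC : Ineq φ K C) : Ineq φ K' C :=
  fun F c A hF hA t ht => hC F c A (hF.trans h) hA t ht

/-- X4. Local inequalities and the inequality far out give the inequality. -/
def X4Stmt : Prop := ∀ φ : ℝ → ℝ, IsWeight φ → ∀ K : Set ℝ, Nice φ K →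
  (∀ p ∈ K, ∃ ρ C : ℝ, 0 < ρ ∧ Ineq φ {x | x ∈ K ∧ |x - p| < ρ} C) →
  (∃ R C : ℝ, Ineq φ {x | x ∈ K ∧ R ≤ |x|} C) → ∃ C : ℝ, Ineq φ K C

theorem x4 : X4Stmt := by
  intro φ hφ K hK hloc hfar
  obtain ⟨R, C, hC⟩ := hfar
  -- endpoints off `K` are dense
  have hdense : ∀ u v : ℝ, u < v → ∃ w : ℝ, w ∉ K ∧ u < w ∧ w < v := by
    intro u v huv
    by_contra hcon
    push Not at hcon
    have h1 : Set.Ioo u v ⊆ K := by
      intro w hw
      by_contra hwK
      exact absurd hw.2 (not_lt.mpr (hcon w hwK hw.1))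
    have h2 : (Set.Ioo u v).Countable := hK.countable.mono h1
    exact absurd (Cardinal.Real.Ioo_countable_iff.mp h2) (not_le.mpr huv)
  -- pieces
  have hpiece : ∀ p ∈ K, ∃ a b : ℝ, a ∉ K ∧ b ∉ K ∧ a < p ∧ p < b ∧
      ∃ C' : ℝ, Ineq φ {x | x ∈ K ∧ a < x ∧ x < b} C' := by
    intro p hp
    obtain ⟨ρ, C', hρ, hC'⟩ := hloc p hp
    obtain ⟨a, haK, ha1, ha2⟩ := hdense (p - ρ) p (by linarith)
    obtain ⟨b, hbK, hb1, hb2⟩ := hdense p (p + ρ) (by linarith)
    refine ⟨a, b, haK, hbK, ha2, hb1, C', ineq_mono ?_ hC'⟩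
    intro x hx
    refine ⟨hx.1, ?_⟩
    rw [abs_lt]
    constructor <;> linarith [hx.2.1, hx.2.2]
  choose! a b haK hbK hap hpb Cp hCp using hpiece
  set K0 : Set ℝ := K ∩ Set.Icc (-R) R with hK0
  have hcomp : IsCompact K0 := isCompact_Icc.inter_left hK.closed
  obtain ⟨T, hTK, hTcov⟩ := hcomp.elim_nhds_subcover (fun p => Set.Ioo (a p) (b p)) (by
    intro p hp
    exact Ioo_mem_nhds (hap p hp.1) (hpb p hp.1))
  -- induction
  have hind : ∀ T' : Finset ℝ, (∀ p ∈ T', p ∈ K) → ∃ C'' : ℝ,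
      Ineq φ ({x | x ∈ K ∧ R ≤ |x|} ∪ ⋃ p ∈ T', {x | x ∈ K ∧ a p < x ∧ x < b p}) C'' := by
    intro T'
    induction T' using Finset.induction_on with
    | empty =>
      intro _
      exact ⟨C, by simpa using hC⟩
    | insert p T' _ ih =>
      intro hT'
      obtain ⟨C1, hC1⟩ := ih (fun q hq => hT' q (Finset.mem_insert_of_mem hq))
      have hp := hT' p (Finset.mem_insert_self _ _)
      obtain ⟨f, hf, hf1⟩ := proj hφ hK.n1 ((hap p hp).trans (hpb p hp)) (haK p hp) (hbK p hp)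
      obtain ⟨C2, hC2⟩ := add_piece hφ (haK p hp) (hbK p hp) hf hf1
        (M := {x | x ∈ K ∧ R ≤ |x|} ∪ ⋃ p ∈ T', {x | x ∈ K ∧ a p < x ∧ x < b p}) (by
          rintro x (hx | hx)
          · exact hx.1
          · rw [Set.mem_iUnion₂] at hx
            obtain ⟨q, _, hq⟩ := hx
            exact hq.1) hC1 (hCp p hp)
      refine ⟨C2, ineq_mono ?_ hC2⟩
      intro x hx
      rcases hx with hx | hx
      · exact Or.inl (Or.inl hx)
      · rw [Set.mem_iUnion₂] at hx
        obtain ⟨q, hq, hxq⟩ := hx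
        rcases Finset.mem_insert.mp hq with rfl | h
        · exact Or.inr hxq
        · left
          right
          rw [Set.mem_iUnion₂]
          exact ⟨q, h, hxq⟩
  obtain ⟨C'', hC''⟩ := hind T (fun p hp => (hTK p hp).1)
  refine ⟨C'', ineq_mono ?_ hC''⟩
  intro x hx
  by_cases h : R ≤ |x|
  · exact Or.inl ⟨hx, h⟩
  · right
    push Not at h
    have h1 : x ∈ K0 := ⟨hx, abs_le.mp h.le⟩
    have h2 := hTcov h1
    rw [Set.mem_iUnion₂] at h2 ⊢
    obtain ⟨q, hq, hxq⟩ := h2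
    exact ⟨q, hq, hx, hxq.1, hxq.2⟩

end

end Pool.Agent.WK4
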